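import Pool.Agent.W922.PolishD
import Pool.Agent.V1170.TC.Rig
import Pool.Agent.V1170.TC.Erg

/-!
# MP_9aeaaa_lc, Q2: topological conjugacy of diffeomorphisms is not reducible to `S_∞`

For every compact manifold of dimension at least `2` and every `r ∈ {1, 2, …, ∞}`, topological
conjugacy on `Diff^r(M)` is not Borel reducible to the orbit equivalence relation of a Borel action
of `S_∞` on a standard Borel space.
-/

set_option autoImplicit false

open Set Filter Topology
open scoped Manifold ContDiff
open Pool.Agent.H410R3.KS Pool.Agent.H410R3.DG Pool.Agent.V1170.TC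

namespace Pool.Agent.Results.MP_9aeaaa_lc.NotClassifiable

universe v

/-- The set `Diff^r(M)` of the `C^r` diffeomorphisms of `M`. -/
def Diff (n : ℕ) (M : Type) [TopologicalSpace M] [ChartedSpace (EuclideanSpace ℝ (Fin n)) M]
    (r : ℕ∞) : Type := DiffR (𝓡 n) M r

variable {n : ℕ} {M : Type} [TopologicalSpace M] [ChartedSpace (EuclideanSpace ℝ (Fin n)) M]
  {r : ℕ∞}

/-- The `C^r` topology on `Diff^r(M)` (for `r = ∞`, the `C^∞` topology): it is generated by the sets
of all `g` which map `K` into the domain of the chart at `y`, and whose local representative in the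
charts at `x` and `y` has all derivatives of order `≤ k` closer than `ε` on `K` to those of the
local representative of `f`; here `k ≤ r` is a natural number, `ε > 0`, `K` is a compact subset of
the domain of the chart at `x`, and `f` maps `K` into the domain of the chart at `y`. -/
noncomputable instance topology : TopologicalSpace (Diff n M r) := crTopology (𝓡 n) M r

/-- The map underlying a diffeomorphism. -/
noncomputable def Diff.map (f : Diff n M r) : M → M := DiffR.map f

/-- `f` and `g` are topologically conjugate: `h ∘ f = g ∘ h` for a homeomorphism `h` of `M`. -/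
def TopConj (f g : Diff n M r) : Prop := ∃ h : M ≃ₜ M, ∀ z : M, h (f.map z) = g.map (h z)

/-- The Borel structure of `S_∞`, generated by the sets `{π | π i = j}` (the subbasic open sets of
the topology of pointwise convergence, which is second countable). -/
def borelPerm : MeasurableSpace (Equiv.Perm ℕ) :=
  MeasurableSpace.generateFrom {U | ∃ i j : ℕ, U = {π : Equiv.Perm ℕ | π i = j}}

/-- The action of `S_∞` on `Y` is Borel: `(π, y) ↦ π • y` is a Borel map `S_∞ × Y → Y`. -/
def BorelAction (Y : Type v) [MeasurableSpace Y] [MulAction (Equiv.Perm ℕ) Y] : Prop :=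
  @Measurable (Equiv.Perm ℕ × Y) Y (borelPerm.prod inferInstance) _ (fun p => p.1 • p.2)

/-- `φ` is a Borel reduction of topological conjugacy on `Diff^r(M)` to the orbit equivalence
relation of the action of `S_∞` on `Y`. -/
def IsReduction (Y : Type v) [MeasurableSpace Y] [MulAction (Equiv.Perm ℕ) Y]
    (φ : Diff n M r → Y) : Prop :=
  @Measurable (Diff n M r) Y (borel _) _ φ ∧
    ∀ f g : Diff n M r, TopConj f g ↔ ∃ π : Equiv.Perm ℕ, π • φ f = φ g

/-- Let `M` be a nonempty compact Hausdorff smooth manifold without boundary of dimension `n ≥ 2`,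
let `1 ≤ r ≤ ∞`, and let `S_∞` act in a Borel way on a standard Borel space `Y`. Then topological
conjugacy on `Diff^r(M)` is not Borel reducible to the orbit equivalence relation on `Y`. -/
theorem result (n : ℕ) (hn : 2 ≤ n) (M : Type) [TopologicalSpace M]
    [ChartedSpace (EuclideanSpace ℝ (Fin n)) M] [IsManifold (𝓡 n) ∞ M] [CompactSpace M] [T2Space M]
    [Nonempty M] (r : ℕ∞) (hr : 1 ≤ r)
    (Y : Type v) [MeasurableSpace Y] [StandardBorelSpace Y] [MulAction (Equiv.Perm ℕ) Y]
    (hY : BorelAction Y) :
    ¬ ∃ φ : Diff n M r → Y, IsReduction Y φ := by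
  rintro ⟨φ, hφ, hred⟩
  obtain ⟨k, rfl⟩ : ∃ k, n = k + 2 := ⟨n - 2, by omega⟩
  obtain ⟨m0⟩ := ‹Nonempty M›
  obtain ⟨c⟩ := exists_CD (k := k) m0
  obtain ⟨q, hq, hqi, ha, ha'⟩ := exists_q k
  let _ : MeasurableSpace (Diff (k + 2) M r) := borel _
  have _ : BorelSpace (Diff (k + 2) M r) := ⟨rfl⟩
  have hP : PolishSpace (Diff (k + 2) M r) := Pool.Agent.W922.polish_cr r hr
  have hsc : SecondCountableTopology M :=
    ChartedSpace.secondCountable_of_sigmaCompact (EuclideanSpace ℝ (Fin (k + 2))) M
  let _ : TopologicalSpace (DiffR (𝓡 (k + 2)) M r) := crTopology (𝓡 (k + 2)) M r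
  have hev := continuous_eval_of_le (E := EuclideanSpace ℝ (Fin (k + 2))) (M := M) (r := r) le_rfl
  let ι : Diff (k + 2) M r → C(M, M) := fun f => ⟨f.map, Diffeomorph.continuous f⟩
  have hι : Continuous ι := ContinuousMap.continuous_of_continuous_uncurry _ hev
  have hinj : Function.Injective ι := by
    intro f g h
    apply Diffeomorph.ext
    intro z
    exact congrArg (fun u : C(M, M) => u z) h
  let _ : MeasurableSpace C(M, M) := borel _
  have _ : BorelSpace C(M, M) := ⟨rfl⟩
  have hemb : MeasurableEmbedding ι := hι.measurableEmbedding hinj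
  have hrr : (r : WithTop ℕ∞) ≤ ∞ := by exact_mod_cast le_top
  let f : (ℕ → ℝ) → Diff (k + 2) M r := fun x =>
    (⟨(fD c ha ha' x).toEquiv, (fD c ha ha' x).contMDiff_toFun.of_le hrr,
      (fD c ha ha' x).contMDiff_invFun.of_le hrr⟩ : Diffeomorph _ _ M M (r : WithTop ℕ∞))
  have hf : ∀ x z, (f x).map z = c.lift (FF (ang q) x) z := fun x z => rfl
  have hιf : Continuous fun x => ι (f x) := by
    apply ContinuousMap.continuous_of_continuous_uncurry
    exact c.continuous_lift (X := ℕ → ℝ) (F := fun x => FF (ang q) x) (fun x => FF_star _ x)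
      (FF_joint ha)
  have hfm : Measurable f := hemb.measurable_comp_iff.1 hιf.measurable
  obtain ⟨C, hC, hCC⟩ := f_perm Y hY (fun x => φ (f x)) (hφ.comp hfm) (fun x y hxy => by
    obtain ⟨g, hg⟩ := conj_of_summable c ha ha' hxy
    exact (hred _ _).1 ⟨g, hg⟩)
  obtain ⟨x, hx, y, hy, h0, h1⟩ := gen_pair hC
  obtain ⟨h, hh⟩ := (hred _ _).2 (hCC x hx y hy)
  exact not_conj c hq hqi h0 h1 h hh

end Pool.Agent.Results.MP_9aeaaa_lc.NotClassifiable
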